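import Pool.Agent.H82.NTC.Stmts

/-!
# Board `ntc`, row IVW: from the ball of a woman to the nominal range
-/

set_option autoImplicit false

namespace Pool.NTC

open Pool.NET

namespace IVW

theorem abs_split (x y : ℤ) (h : |x| ≤ |y|) :
    (x ≤ y ∧ -x ≤ y) ∨ (x ≤ -y ∧ -x ≤ -y) := by
  rcases abs_cases x with ⟨h1, h1'⟩ | ⟨h1, h1'⟩ <;> rcases abs_cases y with ⟨h2, h2'⟩ | ⟨h2, h2'⟩
  · left; constructor <;> omega
  · right; constructor <;> omega
  · left; constructor <;> omega
  · right; constructor <;> omega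

end IVW

theorem ivw_thm : IVW_S := by
  intro p e g h u hp t ht w Z s hs hs' hab
  obtain ⟨q0, gq, gW, We, eM, MS⟩ := hp
  have hab2 := IVW.abs_split _ _ hab
  clear hab
  obtain ⟨v, k⟩ := w
  have h1 := ht (v, k)
  have h2 := ht (pv2 h u (v, k))
  have e1 : p.S * (v.2 + 1) = p.S * v.2 + p.S := by ring
  have e2 : p.S * (v.2 - 1) = p.S * v.2 - p.S := by ring
  cases k
  case NW =>
    by_cases hh : u v
    · simp only [prW, jl, jh, pv2, fy, hh, if_true, e1] at hab2 h1 h2 ⊢
      generalize p.S * v.2 = X at *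
      omega
    · simp only [prW, jl, jh, pv2, fy, hh, if_false] at hab2 h1 h2 ⊢
      generalize p.S * v.2 = X at *
      omega
  case SE =>
    by_cases hh : u (v.1, v.2 - 1)
    · simp only [prW, jl, jh, pv2, fy, hh, if_true, e2] at hab2 h1 h2 ⊢
      generalize p.S * v.2 = X at *
      omega
    · simp only [prW, jl, jh, pv2, fy, hh, if_false] at hab2 h1 h2 ⊢
      generalize p.S * v.2 = X at *
      omega
  case R =>
    simp only [prW, jl, jh, pv2, fy] at hab2 h1 h2 ⊢
    generalize p.S * v.2 = X at *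
    omega
  case L =>
    simp only [prW, jl, jh, pv2, fy] at hab2 h1 h2 ⊢
    generalize p.S * v.2 = X at *
    omega
  case T =>
    simp only [prW, jl, jh, pv2, fy] at hab2 h1 h2 ⊢
    generalize p.S * v.2 = X at *
    omega
  case B =>
    simp only [prW, jl, jh, pv2, fy] at hab2 h1 h2 ⊢
    generalize p.S * v.2 = X at *
    omega
  case J1 =>
    by_cases hh : h v
    · simp only [prW, jl, jh, pv2, fy, hh, if_true] at hab2 h1 h2 ⊢
      generalize p.S * v.2 = X at *
      omega
    · simp only [prW, jl, jh, pv2, fy, hh, if_false] at hab2 h1 h2 ⊢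
      generalize p.S * v.2 = X at *
      omega
  case J2 =>
    simp only [prW, jl, jh, pv2, fy] at hab2 h1 h2 ⊢
    generalize p.S * v.2 = X at *
    omega
  case J3 =>
    by_cases hh : h (v.1 - 1, v.2)
    · simp only [prW, jl, jh, pv2, fy, hh, if_true] at hab2 h1 h2 ⊢
      generalize p.S * v.2 = X at *
      omega
    · simp only [prW, jl, jh, pv2, fy, hh, if_false] at hab2 h1 h2 ⊢
      generalize p.S * v.2 = X at *
      omega
  case J4 =>
    simp only [prW, jl, jh, pv2, fy] at hab2 h1 h2 ⊢
    generalize p.S * v.2 = X at *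
    omega

end Pool.NTC
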