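import Pool.Agent.H82.NTC.Pot

/-!
# Board `ntc`, row PMNW: potential of the women for the men of kind `NW`
-/

set_option autoImplicit false

namespace Pool.NTC

open Pool.NET

namespace PMNW

theorem abs_split (x y : ℤ) (h : |x| < |y|) :
    (x < y ∧ -x < y) ∨ (x < -y ∧ -x < -y) := by
  rcases abs_cases x with ⟨h1, h1'⟩ | ⟨h1, h1'⟩ <;> rcases abs_cases y with ⟨h2, h2'⟩ | ⟨h2, h2'⟩
  · left; constructor <;> omega
  · right; constructor <;> omega
  · left; constructor <;> omega
  · right; constructor <;> omega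

theorem cols (S a b : ℤ) (hS : 0 ≤ S) :
    S * a = S * b ∨ S * b + S ≤ S * a ∨ S * a + S ≤ S * b := by
  rcases lt_trichotomy a b with h | h | h
  · right; right
    have := mul_le_mul_of_nonneg_left (show a + 1 ≤ b by omega) hS
    linarith only [this, mul_add S a 1, mul_one S]
  · left; rw [h]
  · right; left
    have := mul_le_mul_of_nonneg_left (show b + 1 ≤ a by omega) hS
    linarith only [this, mul_add S b 1, mul_one S]

end PMNW

theorem pmnw_thm : PMk Ke.NW := by
  intro p e g e' g' h u hp hp' hr v w s t hs hs' ht ht' hab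
  obtain ⟨q0, gq, gW, We, eM, MS⟩ := hp
  obtain ⟨_, gq', gW', We', eM', _⟩ := hp'
  have hab2 := PMNW.abs_split _ _ hab
  clear hab
  obtain ⟨w, k⟩ := w
  have tri := PMNW.cols p.S w.1 v.1 (by omega)
  unfold Rel at hr
  by_cases hh : h (v.1 - 1, v.2)
  · cases k <;> simp only [prM, nx2, fx, hh, if_true, lvM, sgM] at hab2 ⊢ <;>
      generalize p.S * v.1 = X at * <;> generalize p.S * w.1 = Y at * <;> omega
  · cases k <;> simp only [prM, nx2, fx, hh, if_false, lvM, sgM] at hab2 ⊢ <;>
      generalize p.S * v.1 = X at * <;> generalize p.S * w.1 = Y at * <;> omega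

end Pool.NTC
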